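import Pool.Agent.MP_cfa48c_co.H75.Four

/-! The removable pair conjecture for posets of dimension at most four. -/

namespace Pool.Agent.Results.MP_cfa48c_co.DimFour

theorem result :
    ∀ (α : Type) [Fintype α] [PartialOrder α], 3 ≤ Fintype.card α →
      (∃ g : Fin 4 → α → ℕ,
        (∀ i, Function.Injective (g i)) ∧ ∀ a b : α, (a ≤ b ↔ ∀ i, g i a ≤ g i b)) →
      ∃ x y : α, x ≠ y ∧
        ∀ t : ℕ, 1 ≤ t →
          (∃ f : Fin t → α → ℕ,
              (∀ i, Set.InjOn (f i) ({x, y}ᶜ : Set α)) ∧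
              ∀ a ∈ ({x, y}ᶜ : Set α), ∀ b ∈ ({x, y}ᶜ : Set α),
                (a ≤ b ↔ ∀ i, f i a ≤ f i b)) →
          ∃ g : Fin (t + 1) → α → ℕ,
            (∀ i, Function.Injective (g i)) ∧
            ∀ a b : α, (a ≤ b ↔ ∀ i, g i a ≤ g i b) := by
  rintro α _ _ h3 ⟨g, -, hg⟩
  obtain ⟨x, y, hxy, h⟩ := Pool.Agent.MP_cfa48c_co.H75.rem_of_four h3 ⟨g, fun a _ b _ => hg a b⟩
  exact ⟨x, y, hxy, h.final⟩

end Pool.Agent.Results.MP_cfa48c_co.DimFour
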