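import Pool.Agent.MP_cfa48c_co.H41.Main

/-! The removable pair conjecture for posets without an induced five-point fence `W`. -/

namespace Pool.Agent.Results.MP_cfa48c_co.NoW

theorem result :
    ∀ (α : Type) [Fintype α] [PartialOrder α], 3 ≤ Fintype.card α →
      (¬ ∃ z m c a v : α, m < z ∧ m < c ∧ a < c ∧ a < v ∧
        ¬ a ≤ z ∧ ¬ m ≤ v ∧ ¬ z ≤ c ∧ ¬ v ≤ c ∧
        (∀ d, ¬ d < m) ∧ (∀ d, ¬ d < a) ∧ ∀ q, ¬ c < q) →
      ∃ x y : α, x ≠ y ∧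
        ∀ t : ℕ, 1 ≤ t →
          (∃ f : Fin t → α → ℕ,
              (∀ i, Set.InjOn (f i) ({x, y}ᶜ : Set α)) ∧
              ∀ a ∈ ({x, y}ᶜ : Set α), ∀ b ∈ ({x, y}ᶜ : Set α),
                (a ≤ b ↔ ∀ i, f i a ≤ f i b)) →
          ∃ g : Fin (t + 1) → α → ℕ,
            (∀ i, Function.Injective (g i)) ∧
            ∀ a b : α, (a ≤ b ↔ ∀ i, g i a ≤ g i b) := by
  intro α _ _ h3 hW
  obtain ⟨x, y, hxy, h⟩ := Pool.Agent.MP_cfa48c_co.H41.rem_of_no_W h3 hW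
  exact ⟨x, y, hxy, h.final⟩

end Pool.Agent.Results.MP_cfa48c_co.NoW
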