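import Pool.Agent.MP_cfa48c_co.H41.Low

/-! A removable pair from one free point. -/

namespace Pool.Agent.Results.MP_cfa48c_co.OneFreePoint

theorem result :
    ∀ (α : Type) [Fintype α] [PartialOrder α] (x y : α), (∀ d, ¬ d < x) → x < y →
      (∀ u, ¬ u ≤ y → ¬ y ≤ u → ∃ w, w ≠ y ∧ (∀ d, d < y → d ≠ x → d ≤ w) ∧ ¬ u ≤ w) →
        ∀ t : ℕ, 1 ≤ t →
          (∃ f : Fin t → α → ℕ,
              (∀ i, Set.InjOn (f i) ({x, y}ᶜ : Set α)) ∧
              ∀ a ∈ ({x, y}ᶜ : Set α), ∀ b ∈ ({x, y}ᶜ : Set α),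
                (a ≤ b ↔ ∀ i, f i a ≤ f i b)) →
          ∃ g : Fin (t + 1) → α → ℕ,
            (∀ i, Function.Injective (g i)) ∧
            ∀ a b : α, (a ≤ b ↔ ∀ i, g i a ≤ g i b) := by
  intro α _ _ x y hx hxy h
  exact (Pool.Agent.MP_cfa48c_co.H41.rem_low hx hxy h).final

end Pool.Agent.Results.MP_cfa48c_co.OneFreePoint
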