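import Pool.Agent.MP_cfa48c_co.H75.Fam

/-! In every dimension at least five, a finite poset with a point that lies in no 1-removable
pair. -/

namespace Pool.Agent.Results.MP_cfa48c_co.StrongFormAllDims

theorem result :
    ∀ t : ℕ, 3 ≤ t →
      ∃ (α : Type) (_ : Fintype α) (_ : PartialOrder α) (x : α), Fintype.card α = 4 * t + 11 ∧
        (∀ y : α, y ≠ x →
          ∃ f : Fin t → α → ℕ,
            (∀ i, Set.InjOn (f i) ({x, y}ᶜ : Set α)) ∧
            ∀ a ∈ ({x, y}ᶜ : Set α), ∀ b ∈ ({x, y}ᶜ : Set α),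
              (a ≤ b ↔ ∀ i, f i a ≤ f i b)) ∧
        ¬ ∃ g : Fin (t + 1) → α → ℕ,
            (∀ i, Function.Injective (g i)) ∧
            ∀ a b : α, (a ≤ b ↔ ∀ i, g i a ≤ g i b) := by
  intro t ht
  obtain ⟨m, rfl⟩ : ∃ m, t = m + 3 := ⟨t - 3, by omega⟩
  open Pool.Agent.MP_cfa48c_co.H75F in
  refine ⟨Pt m, inferInstance, ptOrder, od 22, ?_, upper, ?_⟩
  · rw [Pool.Agent.MP_cfa48c_co.H75F.card_pt]
    omega
  · rintro ⟨g, -, hg⟩
    exact Pool.Agent.MP_cfa48c_co.H75F.lower g hg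

end Pool.Agent.Results.MP_cfa48c_co.StrongFormAllDims
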